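import Pool.Agent.Y103.TO.Defs
import Pool.Agent.Y103.TO.Poly

/-!
# Linear families of compatible geometric Poisson structures of order three

For every `m` there is, in `2 (m + 1)` components, a linear space of dimension `m + 1` of Poisson
operators of order three, such that all its elements outside of a hyperplane are geometric Poisson
structures of order three (homogeneous, with nondegenerate leading matrix) that are not
Darboux-Poisson, on any open subset. Since sums and multiples of elements of the space are in the space,
any two of the structures are compatible.

There is a constant matrix `S`, nilpotent of index exactly `m + 1`, such that for each structure `P s` of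
the family the recursion operators `g_s⁻¹ g_t` (`g_s` is the leading matrix of `P s`) with the operators
`P t` of the family are exactly the polynomials in `S`; they are the same at all points.

Method. The operator of the starting file in two components `u^1`, `u^2` makes sense over every
commutative differential algebra. We put `u^i = ∑ u^i_k ε^k` in the algebra of power series modulo
`ε^(m+1)`, take the coefficient of `ε^m` as functional and multiply the operator by the constant
`s = ∑ s_k ε^k`.
-/

set_option autoImplicit false

namespace Pool.Agent.Results.MP_1a410c_mp.LinearFamilies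

open Pool.Agent.Helper974.DiffPoly Pool.Agent.Y103.TO
open Pool.Agent.Results.MP_1a410c_mp.Compatible (DOp)

/-- **Linear families of compatible structures of order three.** For every `m` there are a nonempty open
set in the space of dimension `2 (m + 1)`, an injective linear map `P` from `ℝ^(m+1)` to the matrix
differential operators and a constant matrix `S`, nilpotent of index exactly `m + 1`, such that all `P s`
are Poisson, and `P s` is a geometric Poisson structure of order three, not Darboux-Poisson, if
`s_0 ≠ 0`. For each `s` with `s_0 ≠ 0` the recursion operators `g_s⁻¹ g_t` do not depend on the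
point, and they are the polynomials in `S`. -/
theorem result (m : ℕ) : ∃ (U : Dom ((m + 1) + (m + 1))) (P : (Fin (m + 1) → ℝ) → DOp U)
    (S : Matrix (Fin ((m + 1) + (m + 1))) (Fin ((m + 1) + (m + 1))) ℝ),
    U.pts.Nonempty ∧ IsLinearFamily P ∧ AllPoisson P ∧ GenericGeometric P ∧
    IsNilOfIndexSucc S m ∧ ConstantRecursion P ∧ RecursionOperators P S := by
  have hx : (fun _ => 1 : Fin ((m + 1) + (m + 1)) → ℝ) ∈ (U0 m).pts :=
    show (0 : ℝ) < 1 by norm_num
  refine ⟨U0 m, Fam m, Sh m, ⟨_, hx⟩, ⟨map_add (Fam m), fun r s => map_smul (Fam m) r s,
    Fam_injective⟩, fun s => poisson_W (H s),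
    fun s hs => ⟨geometric_W (coeff_zero_H hs), notDarboux_W (coeff_zero_H hs)⟩,
    ⟨Sh_zero, Sh_ne_zero⟩, ?_, ?_⟩
  · intro s hs t x y
    obtain ⟨q, hq⟩ := is_poly hs t
    exact (hq x).trans (hq y).symm
  · intro s hs M
    constructor
    · rintro ⟨q, rfl⟩
      obtain ⟨t, ht⟩ := exists_poly hs q
      exact ⟨t, ht⟩
    · rintro ⟨t, ht⟩
      obtain ⟨q, hq⟩ := is_poly hs t
      exact ⟨q, (ht ⟨_, hx⟩).symm.trans (hq ⟨_, hx⟩)⟩

end Pool.Agent.Results.MP_1a410c_mp.LinearFamilies
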